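import Pool.Agent.WIR.StmtsB

/-! WIR, row WST: the white step. -/

set_option autoImplicit false

namespace Pool.Agent.WIR.H85

theorem kh_delta85 (B x : ℕ) (hx : x + 3 ≤ B) :
    Kh B (fun x' => if x' = x + 3 then (1 : ℝ) else 0) x = 1 / 4 := by
  unfold Kh
  rw [Finset.sum_eq_single (x + 3)]
  · have h1 : x + 3 - x - 1 = 2 := by omega
    have h2 : x + 3 - x = 3 := by omega
    rw [h1, h2]
    norm_num
  · intro y _ hy
    have h3 : (fun x' => if x' = x + 3 then (1 : ℝ) else 0) y = 0 := if_neg hy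
    rw [h3, mul_zero]
  · intro hy
    exact absurd (Finset.mem_Icc.2 ⟨by omega, hx⟩) hy

theorem kh_phi85 (mon : MonStmt) (B x : ℕ) (d : ℝ) (hd1 : d ≤ 1) :
    Kh B (fun x' => 1 + (-d) * (if x' = x + 3 then (1 : ℝ) else 0)) x ≤ 1 - d / 4 := by
  obtain ⟨m1, m2, m3, m4⟩ := mon
  rw [(m2 B (fun _ => (1 : ℝ)) (fun x' => if x' = x + 3 then (1 : ℝ) else 0) (-d) x).2]
  rcases Nat.lt_or_ge B (x + 3) with hB | hB
  · have h1 : Kh B (fun x' => if x' = x + 3 then (1 : ℝ) else 0) x = 0 := by
      unfold Kh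
      refine Finset.sum_eq_zero fun y hy => ?_
      have hy2 := (Finset.mem_Icc.1 hy).2
      have h3 : (fun x' => if x' = x + 3 then (1 : ℝ) else 0) y = 0 :=
        if_neg (by omega : ¬ y = x + 3)
      rw [h3, mul_zero]
    have h2 : Kh B (fun _ => (1 : ℝ)) x ≤ 1 / 4 := by
      rcases Nat.lt_or_ge B (x + 2) with hB2 | hB2
      · unfold Kh
        rw [Finset.Icc_eq_empty (by omega), Finset.sum_empty]
        norm_num
      · have hB3 : B = x + 2 := by omega
        subst hB3
        unfold Kh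
        rw [Finset.Icc_self, Finset.sum_singleton]
        have h3 : x + 2 - x - 1 = 1 := by omega
        have h4 : x + 2 - x = 2 := by omega
        rw [h3, h4]
        norm_num
    rw [h1]
    linarith
  · rw [kh_delta85 B x hB]
    have h5 := (m3 B 1 x zero_le_one).2
    linarith

theorem wst (mon : MonStmt) : WstStmt := by
  classical
  intro B d b k j x Y f hd0 hd1 hY hf hb hV
  have m1 := mon.1
  have m2 := mon.2.1
  have h1 : Dv B d b (k + 1) j x ≤
      Kh B (fun x' => f x' + Y * (1 + (-d) * (if x' = x + 3 then (1 : ℝ) else 0))) x := by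
    rw [Dv]
    refine (m1 B _ _ x fun x' hx' _ => ?_).2
    have hv := hV x' hx'
    have hfx := hf x'
    by_cases h3 : x' = x + 3
    · have h4 : x' = x + 3 ∧ ¬ b (j + 1) x' := ⟨h3, by rw [h3]; exact hb⟩
      rw [if_pos h4, if_pos h3]
      have h5 : (1 - d) * Dv B d b k (j + 1) x' ≤ (1 - d) * (Y + f x') :=
        mul_le_mul_of_nonneg_left hv (by linarith)
      have h6 : 0 ≤ d * f x' := mul_nonneg hd0 hfx
      calc (1 - d) * Dv B d b k (j + 1) x' ≤ (1 - d) * (Y + f x') := h5
        _ = f x' + Y * (1 + (-d) * 1) - d * f x' := by ring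
        _ ≤ f x' + Y * (1 + (-d) * 1) := by linarith
    · have h4 : ¬ (x' = x + 3 ∧ ¬ b (j + 1) x') := fun h => h3 h.1
      rw [if_neg h4, if_neg h3]
      linarith
  refine h1.trans ?_
  rw [(m2 B f (fun x' => 1 + (-d) * (if x' = x + 3 then (1 : ℝ) else 0)) Y x).2]
  have h7 := mul_le_mul_of_nonneg_left (kh_phi85 mon B x d hd1) hY
  linarith

end Pool.Agent.WIR.H85
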